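import Pool.Agent.H17.OpenHyperbolic

/-!
# Smooth intersections with a boundary with normal crossings
-/

namespace Pool.Agent.H79.Log

open Pool.Agent.H17

/-- At every common zero of the forms `G l` the gradients of the forms `G l` and of those forms
`H l` which vanish there are linearly independent. -/
def SmoothPair {N c m : ℕ} (G : Fin c → MvPolynomial (Fin (N + 1)) ℂ)
    (H : Fin m → MvPolynomial (Fin (N + 1)) ℂ) : Prop :=
  ∀ x : Fin (N + 1) → ℂ, x ≠ 0 → (∀ l, MvPolynomial.eval x (G l) = 0) →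
    ∀ (α : Fin c → ℂ) (β : Fin m → ℂ), (∀ l, MvPolynomial.eval x (H l) ≠ 0 → β l = 0) →
      (∀ j, ∑ l, α l * MvPolynomial.eval x (MvPolynomial.pderiv j (G l)) +
        ∑ l, β l * MvPolynomial.eval x (MvPolynomial.pderiv j (H l)) = 0) → α = 0 ∧ β = 0

/-- The Jacobian criterion for a family of forms. -/
def SmoothFam {N : ℕ} {κ : Type} [Fintype κ] (F : κ → MvPolynomial (Fin (N + 1)) ℂ) : Prop :=
  ∀ x : Fin (N + 1) → ℂ, x ≠ 0 → (∀ l, MvPolynomial.eval x (F l) = 0) →
    ∀ α : κ → ℂ, (∀ j, ∑ l, α l * MvPolynomial.eval x (MvPolynomial.pderiv j (F l)) = 0) → α = 0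

/-- The system of all forms `G l` and the forms `H l` with `l ∈ S`. -/
noncomputable def subSys {N c m : ℕ} (S : Finset (Fin m)) (G : Fin c → MvPolynomial (Fin (N + 1)) ℂ)
    (H : Fin m → MvPolynomial (Fin (N + 1)) ℂ) :
    Fin c ⊕ {l // l ∈ S} → MvPolynomial (Fin (N + 1)) ℂ := Sum.elim G fun l => H l.1

/-- The degrees. -/
def subDeg {c m : ℕ} (S : Finset (Fin m)) (d : Fin c → ℕ) (δ : Fin m → ℕ) :
    Fin c ⊕ {l // l ∈ S} → ℕ := Sum.elim d fun l => δ l.1

lemma subSys_isHomogeneous {N c m : ℕ} (S : Finset (Fin m))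
    {G : Fin c → MvPolynomial (Fin (N + 1)) ℂ} {H : Fin m → MvPolynomial (Fin (N + 1)) ℂ}
    {d : Fin c → ℕ} {δ : Fin m → ℕ} (hG : ∀ l, (G l).IsHomogeneous (d l))
    (hH : ∀ l, (H l).IsHomogeneous (δ l)) (i : Fin c ⊕ {l // l ∈ S}) :
    (subSys S G H i).IsHomogeneous (subDeg S d δ i) := by
  rcases i with i | i
  · exact hG i
  · exact hH i.1

lemma smoothPair_iff {N c m : ℕ} {G : Fin c → MvPolynomial (Fin (N + 1)) ℂ}
    {H : Fin m → MvPolynomial (Fin (N + 1)) ℂ} :
    SmoothPair G H ↔ ∀ S : Finset (Fin m), SmoothFam (subSys S G H) := by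
  classical
  constructor
  · intro h S x hx hxF α hα
    set β : Fin m → ℂ := fun l => if hl : l ∈ S then α (Sum.inr ⟨l, hl⟩) else 0 with hβ
    have h1 := h x hx (fun l => hxF (Sum.inl l)) (fun l => α (Sum.inl l)) β (by
      intro l hl
      simp only [hβ]
      split_ifs with hlS
      · exact absurd (hxF (Sum.inr ⟨l, hlS⟩)) hl
      · rfl) (by
      intro j
      have h2 := hα j
      rw [Fintype.sum_sum_type] at h2
      have h3 : ∑ l, β l * MvPolynomial.eval x (MvPolynomial.pderiv j (H l)) =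
          ∑ l : {l // l ∈ S}, α (Sum.inr l) *
            MvPolynomial.eval x (MvPolynomial.pderiv j (subSys S G H (Sum.inr l))) := by
        have h4 : ∀ l, β l * MvPolynomial.eval x (MvPolynomial.pderiv j (H l)) =
            if l ∈ S then β l * MvPolynomial.eval x (MvPolynomial.pderiv j (H l)) else 0 := by
          intro l
          by_cases hl : l ∈ S
          · rw [if_pos hl]
          · rw [if_neg hl]
            simp only [hβ, dif_neg hl, zero_mul]
        rw [Finset.sum_congr rfl fun l _ => h4 l, Finset.sum_ite_mem, Finset.univ_inter,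
          ← Finset.sum_coe_sort S]
        refine Finset.sum_congr rfl fun l _ => ?_
        simp only [hβ, dif_pos l.2]
        rfl
      rw [h3]
      exact h2)
    funext i
    rcases i with i | i
    · exact congrFun h1.1 i
    · have h2 := congrFun h1.2 i.1
      simp only [hβ, dif_pos i.2, Pi.zero_apply] at h2
      exact h2
  · intro h x hx hxG α β hβ hα
    set S : Finset (Fin m) := Finset.univ.filter fun l => MvPolynomial.eval x (H l) = 0 with hS
    have h1 := h S x hx (by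
      rintro (l | l)
      · exact hxG l
      · exact (Finset.mem_filter.mp l.2).2) (Sum.elim α fun l => β l.1) (by
      intro j
      rw [Fintype.sum_sum_type, ← hα j]
      congr 1
      have h4 : ∀ l, β l * MvPolynomial.eval x (MvPolynomial.pderiv j (H l)) =
          if l ∈ S then β l * MvPolynomial.eval x (MvPolynomial.pderiv j (H l)) else 0 := by
        intro l
        by_cases hl : l ∈ S
        · rw [if_pos hl]
        · rw [if_neg hl, hβ l (fun h0 => hl (Finset.mem_filter.mpr ⟨Finset.mem_univ _, h0⟩)),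
            zero_mul]
      rw [Finset.sum_congr rfl fun l _ => h4 l, Finset.sum_ite_mem, Finset.univ_inter,
        ← Finset.sum_coe_sort S]
      rfl)
    refine ⟨funext fun l => congrFun h1 (Sum.inl l), funext fun l => ?_⟩
    by_cases hl : l ∈ S
    · exact congrFun h1 (Sum.inr ⟨l, hl⟩)
    · exact hβ l fun h0 => hl (Finset.mem_filter.mpr ⟨Finset.mem_univ _, h0⟩)

/-- The minimum of finitely many positive numbers. -/
lemma exists_pos_le {ι : Type} (T : Finset ι) {e : ι → ℝ} (he : ∀ i ∈ T, 0 < e i) :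
    ∃ ε > 0, ∀ i ∈ T, ε ≤ e i := by
  classical
  induction T using Finset.induction_on with
  | empty => exact ⟨1, one_pos, by simp⟩
  | insert a T ha ih =>
    obtain ⟨ε, hε, h⟩ := ih fun i hi => he i (Finset.mem_insert_of_mem hi)
    refine ⟨min ε (e a), lt_min hε (he a (Finset.mem_insert_self _ _)), fun i hi => ?_⟩
    rcases Finset.mem_insert.mp hi with rfl | hi
    · exact min_le_right _ _
    · exact (min_le_left _ _).trans (h i hi)

/-- Smoothness of finitely many partial systems is an open condition. -/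
lemma subSys_open {N c m : ℕ} {d : Fin c → ℕ} {δ : Fin m → ℕ}
    {G : Fin c → MvPolynomial (Fin (N + 1)) ℂ} {H : Fin m → MvPolynomial (Fin (N + 1)) ℂ}
    (hG : ∀ l, (G l).IsHomogeneous (d l)) (hH : ∀ l, (H l).IsHomogeneous (δ l))
    (T : Finset (Finset (Fin m))) (h : ∀ S ∈ T, SmoothFam (subSys S G H)) :
    ∃ ε > 0, ∀ (G' : Fin c → MvPolynomial (Fin (N + 1)) ℂ)
      (H' : Fin m → MvPolynomial (Fin (N + 1)) ℂ),
      (∀ l, (G' l).IsHomogeneous (d l)) → (∀ l, (H' l).IsHomogeneous (δ l)) →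
      (∀ l m, ‖(G' l).coeff m - (G l).coeff m‖ < ε) →
      (∀ l m, ‖(H' l).coeff m - (H l).coeff m‖ < ε) →
      ∀ S ∈ T, SmoothFam (subSys S G' H') := by
  classical
  have h1 : ∀ S : Finset (Fin m), ∃ ε > 0, S ∈ T → ∀ F' : Fin c ⊕ {l // l ∈ S} →
      MvPolynomial (Fin (N + 1)) ℂ, (∀ l, (F' l).IsHomogeneous (subDeg S d δ l)) →
      (∀ l m, ‖(F' l).coeff m - (subSys S G H l).coeff m‖ < ε) → SmoothFam F' := by
    intro S
    by_cases hS : S ∈ T
    · obtain ⟨ε, hε, h2⟩ := smooth_open (subSys_isHomogeneous S hG hH) (h S hS)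
      exact ⟨ε, hε, fun _ F' hF' hclose => h2 F' hF' hclose⟩
    · exact ⟨1, one_pos, fun h => absurd h hS⟩
  choose e he h2 using h1
  obtain ⟨ε, hε, h3⟩ := exists_pos_le T (e := e) fun S _ => he S
  refine ⟨ε, hε, fun G' H' hG' hH' hcG hcH S hS => h2 S hS _ (subSys_isHomogeneous S hG' hH') ?_⟩
  rintro (l | l) μ
  · exact (hcG l μ).trans_le (h3 S hS)
  · exact (hcH l.1 μ).trans_le (h3 S hS)

/-- **Openness.** -/
theorem smoothPair_open {N c m : ℕ} {d : Fin c → ℕ} {δ : Fin m → ℕ}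
    {G : Fin c → MvPolynomial (Fin (N + 1)) ℂ} {H : Fin m → MvPolynomial (Fin (N + 1)) ℂ}
    (hG : ∀ l, (G l).IsHomogeneous (d l)) (hH : ∀ l, (H l).IsHomogeneous (δ l))
    (h : SmoothPair G H) :
    ∃ ε > 0, ∀ (G' : Fin c → MvPolynomial (Fin (N + 1)) ℂ)
      (H' : Fin m → MvPolynomial (Fin (N + 1)) ℂ),
      (∀ l, (G' l).IsHomogeneous (d l)) → (∀ l, (H' l).IsHomogeneous (δ l)) →
      (∀ l m, ‖(G' l).coeff m - (G l).coeff m‖ < ε) →
      (∀ l m, ‖(H' l).coeff m - (H l).coeff m‖ < ε) → SmoothPair G' H' := by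
  obtain ⟨ε, hε, h1⟩ := subSys_open hG hH Finset.univ fun S _ => smoothPair_iff.mp h S
  exact ⟨ε, hε, fun G' H' hG' hH' hcG hcH => smoothPair_iff.mpr fun S =>
    h1 G' H' hG' hH' hcG hcH S (Finset.mem_univ _)⟩

/-- Density of smooth systems, for general index types. -/
lemma exists_smoothFam_near {N : ℕ} {κ : Type} [Fintype κ] {d : κ → ℕ} (hd : ∀ l, 1 ≤ d l)
    {F₀ : κ → MvPolynomial (Fin (N + 1)) ℂ} (hF₀ : ∀ l, (F₀ l).IsHomogeneous (d l))
    {ε : ℝ} (hε : 0 < ε) :
    ∃ F : κ → MvPolynomial (Fin (N + 1)) ℂ, (∀ l, (F l).IsHomogeneous (d l)) ∧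
      (∀ l m, ‖(F l).coeff m - (F₀ l).coeff m‖ < ε) ∧ SmoothFam F := by
  classical
  have e := Fintype.equivFin κ
  obtain ⟨G, hG, hnear, hsm⟩ := H17S.exists_smooth_near (d := fun i => d (e.symm i))
    (fun i => hd _) (G₀ := fun i => F₀ (e.symm i)) (fun i => hF₀ _) hε
  refine ⟨fun l => G (e l), fun l => ?_, fun l μ => ?_, ?_⟩
  · have h1 := hG (e l)
    rwa [e.symm_apply_apply] at h1
  · have h1 := hnear (e l) μ
    rwa [e.symm_apply_apply] at h1
  · intro x hx hxF α hα
    have h1 := hsm x hx (fun i => by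
      have h2 := hxF (e.symm i)
      beta_reduce at h2
      rwa [e.apply_symm_apply] at h2) (fun i => α (e.symm i)) (fun j => by
      rw [← hα j]
      refine Fintype.sum_equiv e.symm _ _ fun i => ?_
      beta_reduce
      rw [e.apply_symm_apply])
    funext l
    have h2 := congrFun h1 (e l)
    rwa [e.symm_apply_apply] at h2

/-- **Density.** -/
theorem exists_smoothPair_near {N c m : ℕ} {d : Fin c → ℕ} {δ : Fin m → ℕ} (hd : ∀ l, 1 ≤ d l)
    (hδ : ∀ l, 1 ≤ δ l) {G₀ : Fin c → MvPolynomial (Fin (N + 1)) ℂ}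
    {H₀ : Fin m → MvPolynomial (Fin (N + 1)) ℂ} (hG₀ : ∀ l, (G₀ l).IsHomogeneous (d l))
    (hH₀ : ∀ l, (H₀ l).IsHomogeneous (δ l)) {ε : ℝ} (hε : 0 < ε) :
    ∃ (G : Fin c → MvPolynomial (Fin (N + 1)) ℂ) (H : Fin m → MvPolynomial (Fin (N + 1)) ℂ),
      (∀ l, (G l).IsHomogeneous (d l)) ∧ (∀ l, (H l).IsHomogeneous (δ l)) ∧
      (∀ l m, ‖(G l).coeff m - (G₀ l).coeff m‖ < ε) ∧
      (∀ l m, ‖(H l).coeff m - (H₀ l).coeff m‖ < ε) ∧ SmoothPair G H := by
  classical
  have main : ∀ T : Finset (Finset (Fin m)), ∀ ε : ℝ, 0 < ε →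
      ∃ (G : Fin c → MvPolynomial (Fin (N + 1)) ℂ) (H : Fin m → MvPolynomial (Fin (N + 1)) ℂ),
      (∀ l, (G l).IsHomogeneous (d l)) ∧ (∀ l, (H l).IsHomogeneous (δ l)) ∧
      (∀ l m, ‖(G l).coeff m - (G₀ l).coeff m‖ < ε) ∧
      (∀ l m, ‖(H l).coeff m - (H₀ l).coeff m‖ < ε) ∧ ∀ S ∈ T, SmoothFam (subSys S G H) := by
    intro T
    induction T using Finset.induction_on with
    | empty =>
      intro ε hε
      exact ⟨G₀, H₀, hG₀, hH₀, fun l μ => by simpa using hε, fun l μ => by simpa using hε, by simp⟩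
    | insert S T hS ih =>
      intro ε hε
      obtain ⟨G, H, hG, hH, hnG, hnH, hsm⟩ := ih (ε / 2) (half_pos hε)
      obtain ⟨ε', hε', hopen⟩ := subSys_open hG hH T hsm
      have hε'' : 0 < min ε' (ε / 2) := lt_min hε' (half_pos hε)
      obtain ⟨F, hF, hnF, hsmF⟩ := exists_smoothFam_near (d := subDeg S d δ) (by
        rintro (l | l)
        · exact hd l
        · exact hδ l.1) (subSys_isHomogeneous S hG hH) hε''
      set G' : Fin c → MvPolynomial (Fin (N + 1)) ℂ := fun l => F (Sum.inl l) with hG'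
      set H' : Fin m → MvPolynomial (Fin (N + 1)) ℂ := fun l =>
        if hl : l ∈ S then F (Sum.inr ⟨l, hl⟩) else H l with hH'
      have hG'h : ∀ l, (G' l).IsHomogeneous (d l) := fun l => hF (Sum.inl l)
      have hH'h : ∀ l, (H' l).IsHomogeneous (δ l) := by
        intro l
        simp only [hH']
        split_ifs with hl
        · exact hF (Sum.inr ⟨l, hl⟩)
        · exact hH l
      have hcG : ∀ l μ, ‖(G' l).coeff μ - (G l).coeff μ‖ < min ε' (ε / 2) := fun l μ =>
        hnF (Sum.inl l) μ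
      have hcH : ∀ l μ, ‖(H' l).coeff μ - (H l).coeff μ‖ < min ε' (ε / 2) := by
        intro l μ
        simp only [hH']
        split_ifs with hl
        · exact hnF (Sum.inr ⟨l, hl⟩) μ
        · simpa using hε''
      have htri : ∀ a b e : ℂ, ‖a - b‖ < min ε' (ε / 2) → ‖b - e‖ < ε / 2 → ‖a - e‖ < ε := by
        intro a b e h1 h2
        have h3 : a - e = (a - b) + (b - e) := by ring
        have h4 := h1.trans_le (min_le_right _ _)
        rw [h3]
        refine (norm_add_le _ _).trans_lt ?_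
        linarith
      refine ⟨G', H', hG'h, hH'h, fun l μ => htri _ _ _ (hcG l μ) (hnG l μ),
        fun l μ => htri _ _ _ (hcH l μ) (hnH l μ), fun S' hS' => ?_⟩
      rcases Finset.mem_insert.mp hS' with rfl | hS'
      · have h1 : subSys S' G' H' = F := by
          funext i
          rcases i with i | i
          · rfl
          · simp only [subSys, Sum.elim_inr, hH', dif_pos i.2]
        rw [h1]
        exact hsmF
      · exact hopen G' H' hG'h hH'h (fun l μ => (hcG l μ).trans_le (min_le_left _ _))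
          (fun l μ => (hcH l μ).trans_le (min_le_left _ _)) S' hS'
  obtain ⟨G, H, hG, hH, hnG, hnH, hsm⟩ := main Finset.univ ε hε
  exact ⟨G, H, hG, hH, hnG, hnH, smoothPair_iff.mpr fun S => hsm S (Finset.mem_univ _)⟩

end Pool.Agent.H79.Log
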